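import Pool.Agent.H.MP_e2feb3_nt.Main

set_option autoImplicit false

namespace Pool.Agent.Results.MP_e2feb3_nt.Full

open Pool.Agent.H.MP_e2feb3_nt

/-- `D_3 = U_3 = {3,4,5,6,7,8,10,11,13}`. -/
theorem result : gaps IsDown 3 = {3, 4, 5, 6, 7, 8, 10, 11, 13} ∧
    gaps IsUp 3 = {3, 4, 5, 6, 7, 8, 10, 11, 13} :=
  main

end Pool.Agent.Results.MP_e2feb3_nt.Full
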